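import Pool.Agent.LibMC75.F3
import Pool.Agent.LibMC75.C1
import Pool.Agent.LibMC75.S1
import Pool.Agent.LibMC75.X1
import Pool.Agent.LibMC75.X2
import Pool.Agent.LibMC75.Q1

namespace Pool.Agent.Results.MP_9a4607_lc.MatchingCircuits

open LibMC75

/-- Bipartite maximum-weight matching with unary weights, in particular bipartite perfect
matching, has uniform comparator circuits of polynomial size.

* The comparators are printed by one fixed program of nested for-loops with arithmetic index
  expressions (`Prog`, `Prog.print`, `Ex`).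
* A wire starts with a constant or with a literal `[v i j = k]`, `[v i j ≠ k]` (`Wire.init`); a
  comparator puts the AND of its two bits on its first wire and their OR on its second wire
  (`step`, `run`); there is no fan-out.
* Decision: the output wire tells whether there is a matching of weight at least `K`; for 0/1
  weights, `W = 1` and `K = n` this is bipartite perfect matching.
* Search: one circuit with an output wire for every pair; the pairs with value 1 form a matching
  of maximum weight.
* Every printed circuit has polynomial size. -/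
theorem result :
    (∃ P : Prog,
      (∀ (n W K : ℕ) (v : ℕ → ℕ → ℕ), (∀ i < n, ∀ j < n, v i j ≤ W) → 1 ≤ K →
        (run (P.print [n, W, K]) (Wire.init v) (.zero [K - 1]) = true ↔
          ∃ M, IsMatching n M ∧ K ≤ weight v M)) ∧
      (∀ (n : ℕ) (E : ℕ → ℕ → Bool), 1 ≤ n →
        (run (P.print [n, 1, n]) (Wire.init fun i j => if E i j then 1 else 0)
            (.zero [n - 1]) = true ↔
          ∃ σ : Equiv.Perm (Fin n), ∀ i : Fin n, E i (σ i) = true))) ∧
    (∃ P : Prog, ∀ (n W : ℕ) (v : ℕ → ℕ → ℕ), (∀ i < n, ∀ j < n, v i j ≤ W) →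
      ∃ M, IsMatching n M ∧ (∀ M', IsMatching n M' → weight v M' ≤ weight v M) ∧
        ∀ i < n, ∀ j < n,
          (run (P.print [n, W]) (Wire.init v) (.zero [i, j]) = true ↔ (i, j) ∈ M)) ∧
    (∀ P : Prog, ∃ c : ℕ, ∀ (N : ℕ) (env : List ℕ), (∀ x ∈ env, x ≤ N) →
      (P.print env).length ≤ (N + 2) ^ c) := by
  have hdec : ∀ (n W K : ℕ) (v : ℕ → ℕ → ℕ), (∀ i < n, ∀ j < n, v i j ≤ W) → 1 ≤ K →
      (run (PD.print [n, W, K]) (Wire.init v) (.zero [K - 1]) = true ↔
        ∃ M, IsMatching n M ∧ K ≤ weight v M) := by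
    intro n W K v hv hK
    rw [PD_print, dec_spec n W K v hK]
    obtain ⟨h1, h2, h3⟩ := MM_spec n W v hv
    rw [h3]
    exact ⟨fun h => ⟨_, h1, h⟩, fun ⟨M, hM, hw⟩ => hw.trans (h2 M hM)⟩
  refine ⟨⟨PD, hdec, ?_⟩, ⟨PS, ?_⟩, print_le⟩
  · intro n E hn
    rw [hdec n 1 n _ (fun i _ j _ => by split <;> omega) hn]
    exact perfect_iff n E
  · intro n W v hv
    obtain ⟨h1, h2, -⟩ := MM_spec n W v hv
    refine ⟨_, h1, h2, ?_⟩
    intro i hi j hj
    rw [PS_print, srch_spec n W v i j hi]
    simp only [MM, Finset.mem_filter, Finset.mem_product, Finset.mem_range]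
    exact ⟨fun h => ⟨⟨hi, hj⟩, h⟩, fun h => h.2⟩

end Pool.Agent.Results.MP_9a4607_lc.MatchingCircuits
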