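import Pool.Agent.LibCQ62.Final

namespace Pool.Agent.Results.MP_9a4607_lc.QuarterRoot

open Pool.Agent.LibCC Pool.Agent.LibCCV

/-- There is a constant `c` such that for all `n` and `m` one levelled Boolean circuit of fan-in
at most two, with `c * N ^ c` gates on every level, where `N = n + 2 * m + 1`, which reads a
comparator circuit with `n` sources and `m` comparators, its input bits and a designated arc,
computes on a level
`D ≤ c * (log₂ N + 1) ^ c * min ((m + 1) ^ (1 / 4)) ((n + 1) ^ (1 / 2))` the value of the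
designated arc. -/
theorem result :
    ∃ c : ℕ, ∀ n m : ℕ,
      ∃ (D : ℕ) (B : BCircuit (Bit n m) (c * (n + 2 * m + 1) ^ c))
        (o : Fin (c * (n + 2 * m + 1) ^ c)),
        (D : ℝ) ≤ c * ((Nat.log 2 (n + 2 * m + 1) : ℝ) + 1) ^ c *
          min (((m : ℝ) + 1) ^ (1 / 4 : ℝ)) (((n : ℝ) + 1) ^ (1 / 2 : ℝ)) ∧
        ∀ (C : CompCircuit n m) (x : Fin n → Bool) (v : Arc n m → Bool), C.IsVal x v →
          ∀ e : Arc n m, B.level (encode C x e) D o = v e :=
  Pool.Agent.LibCQ62.quarterRoot

end Pool.Agent.Results.MP_9a4607_lc.QuarterRoot
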