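import Pool.Agent.LibBPL64.Print

namespace Pool.Agent.Results.MP_9a4607_lc.RandomWalks

open LibMC75 LibBPL64

/-- Random walks can be followed by uniform comparator circuits of polynomial size (BPL is
contained in CC).

* `pos n v c t`: the walk starts in state `0` and moves from the state `x < n` at time `t`, if the
  coin with the sides `0, ..., d - 1` shows `c t`, to the state `v (t * n + x) (c t)`.
* `prob n d v T w`: the probability that it is in `w` at time `T` (number of the sequences of `T`
  coin values with this property, divided by `d ^ T`).
* The comparators are printed by one fixed program of nested for-loops with arithmetic index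
  expressions (`Prog`, `Prog.print`, `Ex`); a wire starts with a constant or with a literal
  `[v i j = k]`, `[v i j ≠ k]` (`Wire.init`); a comparator puts the AND of its two bits on its first
  wire and their OR on its second wire (`step`, `run`); there is no fan-out. -/
theorem result :
    ∃ P : Prog,
      (∀ (n d T K : ℕ) (v : ℕ → ℕ → ℕ), 0 < n → 0 < d → (∀ x < T * n, ∀ c < d, v x c < n) →
        ∀ w < n, ∀ j < K,
          (((j + 1 : ℕ) : ℚ) / K ≤ prob n d v T w →
            run (P.print [n, d, T, K]) (Wire.init v) (.zero [w, j]) = true) ∧
          (prob n d v T w ≤ (j : ℚ) / K →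
            run (P.print [n, d, T, K]) (Wire.init v) (.zero [w, j]) = false)) ∧
      ∃ c : ℕ, ∀ N n d T K : ℕ, n ≤ N → d ≤ N → T ≤ N → K ≤ N →
        (P.print [n, d, T, K]).length ≤ (N + 2) ^ c := by
  refine ⟨pWalk, ?_, ?_⟩
  · intro n d T K v hn hd hv w hw j hj
    exact pWalk_approx n d T K v hn hd hv w hw j hj
  · obtain ⟨c, hc⟩ := print_le pWalk
    refine ⟨c, fun N n d T K h1 h2 h3 h4 => hc N [n, d, T, K] ?_⟩
    intro x hx
    simp only [List.mem_cons, List.not_mem_nil, or_false] at hx
    rcases hx with rfl | rfl | rfl | rfl <;> assumption

end Pool.Agent.Results.MP_9a4607_lc.RandomWalks
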