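import Pool.Agent.LibBPL64.VNet
import Pool.Agent.LibBPL64.VHard2

namespace Pool.Agent.Results.MP_9a4607_lc.VisitMachines

open LibMC75 LibBPL64

/-- Walks with visit counters are the same as comparator circuits.

* `walk σ`, `place σ t`: the walk starts in `0` and leaves a place `x` in which it has been `k`
  times before to `σ x k`; `visits σ T w` is the number of its visits of `w` up to time `T`.
* `Prog`, `Prog.print`, `Ex`: programs of nested for-loops with arithmetic index expressions which
  print comparator circuits; a wire starts with a constant or with a literal `[σ x k = j]`,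
  `[σ x k ≠ j]` (`Wire.init`); a comparator puts the AND of its two bits on its first wire and their
  OR on its second wire (`step`, `run`); there is no fan-out.
* `crun gs s`: the values of the wires `0, 1, ...` with the source bits `s` after the comparators of
  the list `gs`; `rule N gs s`: the walk of this circuit. -/
theorem result :
    (∃ P : Prog,
      (∀ (n T : ℕ) (σ : ℕ → ℕ → ℕ), 0 < n → (∀ x < n, ∀ k < T, σ x k < n) →
        ∀ w < n, ∀ h : ℕ,
          (run (P.print [n, T]) (Wire.init σ) (.zero [w, h]) = true ↔ h < visits σ T w)) ∧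
      (∀ (n : ℕ) (σ : ℕ → ℕ → ℕ), 0 < n → (∀ x < n, ∀ k, σ x k < n) →
        (∀ x k, σ x (k + 1) = σ x 1) → ∀ w < n,
          (run (P.print [n, n * n]) (Wire.init σ) (.zero [w, 0]) = true ↔
            ∃ t, place σ t = w)) ∧
      ∃ c : ℕ, ∀ N n T : ℕ, n ≤ N → T ≤ N → (P.print [n, T]).length ≤ (N + 2) ^ c) ∧
    (∀ (N : ℕ) (gs : List (ℕ × ℕ)) (s : ℕ → Bool),
      (∀ g ∈ gs, g.1 < N ∧ g.2 < N ∧ g.1 ≠ g.2) →
        (∀ x < N + 1 + (gs.length + 1) * N + gs.length, ∀ k,
          rule N gs s x k < N + 1 + (gs.length + 1) * N + gs.length) ∧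
        (∀ x k, rule N gs s x (k + 1) = rule N gs s x 1) ∧
        ∀ a < N, (crun gs s a = true ↔ ∃ t, place (rule N gs s) t = vW N gs.length a)) := by
  refine ⟨⟨pVis, ?_, ?_, ?_⟩, ?_⟩
  · intro n T σ hn hσ w hw h
    exact pVis_spec n T σ hn hσ w hw h
  · intro n σ hn hb hσ w hw
    rw [pVis_spec n (n * n) σ hn (fun x hx k _ => hb x hx k) w hw 0]
    constructor
    · intro h
      unfold visits at h
      obtain ⟨t, ht⟩ := Finset.card_pos.1 h
      exact ⟨t, (Finset.mem_filter.1 ht).2⟩
    · intro h
      obtain ⟨t, h1, h2⟩ := visit_bound hn hb hσ w h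
      unfold visits
      exact Finset.card_pos.2 ⟨t, Finset.mem_filter.2 ⟨Finset.mem_range.2 (by omega), h2⟩⟩
  · obtain ⟨c, hc⟩ := print_le pVis
    refine ⟨c, fun N n T h1 h2 => hc N [n, T] ?_⟩
    intro x hx
    simp only [List.mem_cons, List.not_mem_nil, or_false] at hx
    rcases hx with rfl | rfl <;> assumption
  · intro N gs s hg
    exact ⟨rule_lt hg, rule_later, fun a ha => hard hg a ha⟩

end Pool.Agent.Results.MP_9a4607_lc.VisitMachines
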